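import Mathlib

/-! Products of numbers `1 + t c`. -/

set_option autoImplicit false

namespace Pool.Agent.H83.BD

/-- if `a i` lies between `0` and `c = (∑ a i) / 2` and `1 + a i ≥ 0` then `1 + c ≤ √(∏ (1 + a i))` -/
theorem one_add_le_sqrt_prod {ι : Type*} (s : Finset ι) (a : ι → ℝ) (c : ℝ)
    (hc : ∑ i ∈ s, a i = 2 * c) (ha : ∀ i ∈ s, a i ∈ Set.uIcc 0 c) (ha1 : ∀ i ∈ s, 0 ≤ 1 + a i) :
    1 + c ≤ √(∏ i ∈ s, (1 + a i)) := by
  rcases lt_or_ge (1 + c) 0 with h | h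
  · exact h.le.trans (Real.sqrt_nonneg _)
  apply Real.le_sqrt_of_sq_le
  by_cases hc0 : c = 0
  · subst hc0
    have h1 : ∀ i ∈ s, 1 + a i = 1 := fun i hi => by
      have := ha i hi
      rw [Set.uIcc_self, Set.mem_singleton_iff] at this
      rw [this, add_zero]
    rw [Finset.prod_congr rfl h1]
    simp
  -- `a i = t i c`
  have ht : ∀ i ∈ s, 0 ≤ a i / c ∧ a i / c ≤ 1 := by
    intro i hi
    have h1 := ha i hi
    rcases lt_or_gt_of_ne hc0 with h2 | h2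
    · rw [Set.uIcc_of_ge h2.le] at h1
      exact ⟨div_nonneg_of_nonpos h1.2 h2.le, (div_le_one_of_neg h2).2 h1.1⟩
    · rw [Set.uIcc_of_le h2.le] at h1
      exact ⟨div_nonneg h1.1 h2.le, (div_le_one h2).2 h1.2⟩
  have h1 : ∀ i ∈ s, (1 + c) ^ (a i / c) ≤ 1 + a i := by
    intro i hi
    have h2 := rpow_one_add_le_one_add_mul_self (s := c) (p := a i / c) (by linarith)
      (ht i hi).1 (ht i hi).2
    rwa [div_mul_cancel₀ _ hc0] at h2
  have h2 : ∏ i ∈ s, (1 + c) ^ (a i / c) ≤ ∏ i ∈ s, (1 + a i) :=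
    Finset.prod_le_prod (fun i _ => Real.rpow_nonneg h _) h1
  have h3 : ∑ i ∈ s, a i / c = 2 := by
    rw [← Finset.sum_div, hc]
    field_simp
  rcases h.eq_or_lt with h4 | h4
  · rw [← h4]
    simp only [ne_eq, OfNat.ofNat_ne_zero, not_false_eq_true, zero_pow]
    exact Finset.prod_nonneg ha1
  · rw [← Real.rpow_sum_of_pos h4, h3] at h2
    rwa [Real.rpow_two] at h2

end Pool.Agent.H83.BD
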