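import Pool.Agent.H85.BE.Final
import Pool.Agent.H83.BD.Num

/-! Pairs of metrics with pinched difference are in the cone. -/

set_option autoImplicit false

open Set Metric MeasureTheory Filter Topology
open scoped ContDiff RealInnerProductSpace

noncomputable section

set_option maxSynthPendingDepth 3

namespace Pool.Agent.H83.BD

open Pool.Agent.W9h56.BE Pool.Agent.W5h72.BR

variable {E : Type*} [NormedAddCommGroup E] [InnerProductSpace ℝ E] [FiniteDimensional ℝ E]

/-- half of the trace of `C - B` relative to `B` -/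
def halfTrace (B C : E →L[ℝ] E →L[ℝ] ℝ) : ℝ :=
  (((gram B)⁻¹ * gram C).trace - Module.finrank ℝ E) / 2

/-- simultaneous diagonalisation -/
theorem diag {B C : E →L[ℝ] E →L[ℝ] ℝ} (hBs : ∀ v w, B v w = B w v)
    (hBp : ∀ v, v ≠ 0 → 0 < B v v) (hCs : ∀ v w, C v w = C w v) :
    ∃ (u : Fin (Module.finrank ℝ E) → E), (∀ i, B (u i) (u i) = 1) ∧
      ntr B C = (∑ i, C (u i) (u i)) / Module.finrank ℝ E ∧
      (gram C).det = (∏ i, C (u i) (u i)) * (gram B).det := by
  obtain ⟨A, hA, -, -⟩ := exists_frame hBs hBp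
  -- the form `C` in the frame
  set A' : E →L[ℝ] E := LinearMap.toContinuousLinearMap A.toLinearMap with hA'
  have hA'v : ∀ v, A' v = A v := fun v => rfl
  set C' : E →L[ℝ] E →L[ℝ] ℝ := C.bilinearComp A' A' with hC'
  have hC'v : ∀ v w, C' v w = C (A v) (A w) := fun v w => rfl
  have hsym : ((gop C' : E →L[ℝ] E).toLinearMap).IsSymmetric := by
    intro v w
    simp only [ContinuousLinearMap.coe_coe]
    rw [inner_gop, real_inner_comm, inner_gop, hC'v, hC'v, hCs]
  set n := Module.finrank ℝ E with hnn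
  set b := hsym.eigenvectorBasis (n := n) rfl with hb
  set l := hsym.eigenvalues (n := n) rfl with hl
  have hbb : ∀ i j, inner ℝ (b i) (b j) = if i = j then (1 : ℝ) else 0 := fun i j =>
    orthonormal_iff_ite.1 b.orthonormal i j
  have hGb : ∀ i, gop C' (b i) = l i • b i := fun i => by
    exact hsym.apply_eigenvectorBasis (n := n) rfl i
  have hCb : ∀ i j, C (A (b i)) (A (b j)) = l i * if i = j then (1 : ℝ) else 0 := fun i j => by
    rw [← hC'v, ← inner_gop, hGb, inner_smul_left, hbb]; simp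
  -- the frame `A ∘ U`
  set d := stdOrthonormalBasis ℝ E with hd
  set U : E ≃ₗᵢ[ℝ] E := d.repr.trans b.repr.symm with hU
  have hUd : ∀ i, U (d i) = b i := fun i => by
    simp [hU]
  set A₂ : E ≃ₗ[ℝ] E := U.toLinearEquiv.trans A with hA₂
  have hA₂v : ∀ v, A₂ v = A (U v) := fun v => rfl
  have hA₂B : ∀ v w, B (A₂ v) (A₂ w) = inner ℝ v w := fun v w => by
    rw [hA₂v, hA₂v, hA, U.inner_map_map]
  have htr := frame_trace hA₂B C
  -- the matrices
  set M : Matrix (Fin n) (Fin n) ℝ := Matrix.of fun i j => inner ℝ (d i) (A₂ (d j)) with hM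
  have hAd : ∀ j, A₂ (d j) = ∑ i, M i j • d i := fun j => by
    have := d.sum_repr' (A₂ (d j))
    rw [← this]
    rfl
  have key : ∀ C : E →L[ℝ] E →L[ℝ] ℝ, ∀ i j, (M.transpose * gram C * M) i j =
      C (A₂ (d i)) (A₂ (d j)) := by
    intro C i j
    rw [hAd i, hAd j]
    simp only [Matrix.mul_apply, Matrix.transpose_apply, gram, Matrix.of_apply, map_sum, map_smul,
      FunLike.coe_sum, Finset.sum_apply, smul_apply, smul_eq_mul, Finset.sum_mul, Finset.mul_sum]
    refine Finset.sum_congr rfl fun k _ => Finset.sum_congr rfl fun l _ => ?_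
    rw [← hd]
    ring
  have h1 : M.transpose * gram B * M = 1 := by
    ext i j
    rw [key, hA₂B, Matrix.one_apply]
    exact orthonormal_iff_ite.1 d.orthonormal i j
  have h2 : M.transpose * gram C * M = Matrix.diagonal l := by
    ext i j
    rw [key, hA₂v, hA₂v, hUd, hUd, hCb, Matrix.diagonal_apply]
    split_ifs with h <;> simp
  have h3 := congrArg Matrix.det h1
  have h4 := congrArg Matrix.det h2
  rw [Matrix.det_mul, Matrix.det_mul, Matrix.det_transpose, Matrix.det_one] at h3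
  rw [Matrix.det_mul, Matrix.det_mul, Matrix.det_transpose, Matrix.det_diagonal] at h4
  have hll : ∀ i, C (A (b i)) (A (b i)) = l i := fun i => by rw [hCb]; simp
  refine ⟨fun i => A (b i), fun i => ?_, ?_, ?_⟩
  · rw [hA, hbb]; simp
  · rw [htr]
    congr 1
    refine Finset.sum_congr rfl fun i _ => ?_
    rw [← hd, hA₂v, hUd]
  · have h5 : ∏ i, C (A (b i)) (A (b i)) = ∏ i, l i := Finset.prod_congr rfl fun i _ => hll i
    rw [h5, ← h4]
    have hM0 : M.det ≠ 0 := by
      intro h6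
      rw [h6, zero_mul, zero_mul] at h3
      exact zero_ne_one h3
    linear_combination (-(gram C).det) * h3

variable [MeasurableSpace E] [BorelSpace E] {g g' : E → E →L[ℝ] E →L[ℝ] ℝ} {φ : E → E}

/-- the pointwise inequality -/
theorem ntr_le (hn : 0 < Module.finrank ℝ E) (hg : IsMetric g) (hg' : IsMetric g')
    (hφ : IsBdryMap φ) {x : E} (hx : x ∈ closedBall (0 : E) 1)
    (hb : ∀ v, pull φ g' x v v - g x v v ∈
      uIcc 0 (halfTrace (g x) (pull φ g' x) * g x v v)) :
    √(ntr (g x) (pull φ g' x)) ≤ 1 + (jac g g' φ x - 1) / Module.finrank ℝ E := by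
  have hn' : (0 : ℝ) < Module.finrank ℝ E := by exact_mod_cast hn
  have hxφ := hφ.maps hx
  have hCs : ∀ v w, pull φ g' x v w = pull φ g' x w v := fun v w => hg'.symm _ hxφ _ _
  have hC0 : ∀ v, 0 ≤ pull φ g' x v v := by
    intro v
    show 0 ≤ g' (φ x) (fderiv ℝ φ x v) (fderiv ℝ φ x v)
    by_cases h : fderiv ℝ φ x v = 0
    · rw [h]; simp
    · exact (hg'.pos _ hxφ _ h).le
  obtain ⟨u, hu1, hu2, hu3⟩ := diag (hg.symm x hx) (hg.pos x hx) hCs
  set C := pull φ g' x with hC
  set B := g x with hB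
  set c := halfTrace B C with hc
  have hntr : ntr B C = 1 + 2 * c / Module.finrank ℝ E := by
    rw [hc, halfTrace, ntr]
    field_simp
    ring
  have hsum : ∑ i, (C (u i) (u i) - 1) = 2 * c := by
    rw [Finset.sum_sub_distrib]
    simp only [Finset.sum_const, Finset.card_univ, Fintype.card_fin, nsmul_eq_mul, mul_one]
    rw [hntr] at hu2
    rw [eq_div_iff hn'.ne', add_mul, one_mul, div_mul_cancel₀ _ hn'.ne'] at hu2
    linarith
  have hmem : ∀ i ∈ Finset.univ, C (u i) (u i) - 1 ∈ uIcc 0 c := by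
    intro i _
    have := hb (u i)
    rwa [hu1, mul_one] at this
  have h1 := one_add_le_sqrt_prod Finset.univ (fun i => C (u i) (u i) - 1) c hsum hmem
    (fun i _ => by
      have := hC0 (u i)
      linarith)
  have h2 : ∏ i, (1 + (C (u i) (u i) - 1)) = ∏ i, C (u i) (u i) :=
    Finset.prod_congr rfl fun i _ => by ring
  rw [h2] at h1
  have h3 : jac g g' φ x = √(∏ i, C (u i) (u i)) := by
    rw [jac, ← dens_pull, dens, dens, hu3, Real.sqrt_mul (Finset.prod_nonneg fun i _ => hC0 _)]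
    have h4 : √(gram B).det ≠ 0 := (dens_pos hg hx).ne'
    exact mul_div_cancel_right₀ _ h4
  rw [h3]
  have hntr0 : 0 ≤ ntr B C := by
    rw [hu2]
    exact div_nonneg (Finset.sum_nonneg fun i _ => hC0 _) hn'.le
  have h5 : √(ntr B C) ≤ 1 + c / Module.finrank ℝ E := by
    rw [hntr] at hntr0 ⊢
    have h6 : 0 ≤ 1 + c / Module.finrank ℝ E := by
      have : 2 * c / (Module.finrank ℝ E : ℝ) = 2 * (c / Module.finrank ℝ E) := by ring
      rw [this] at hntr0
      linarith
    rw [Real.sqrt_le_left h6]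
    have : (1 + c / (Module.finrank ℝ E : ℝ)) ^ 2 =
      1 + 2 * c / Module.finrank ℝ E + (c / Module.finrank ℝ E) ^ 2 := by ring
    rw [this]
    nlinarith [sq_nonneg (c / (Module.finrank ℝ E : ℝ))]
  refine h5.trans ?_
  have h7 : c / (Module.finrank ℝ E : ℝ) ≤
      (√(∏ i, C (u i) (u i)) - 1) / Module.finrank ℝ E :=
    div_le_div_of_nonneg_right (by linarith) hn'.le
  linarith

theorem main (hn : 2 ≤ Module.finrank ℝ E) (hg : IsSimpleM g) (hφ : IsBdryMap φ)
    (hbij : BijOn φ (closedBall (0 : E) 1) (closedBall (0 : E) 1))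
    (hb : ∀ x ∈ closedBall (0 : E) 1, ∀ v, pull φ g' x v v - g x v v ∈
      uIcc 0 (halfTrace (g x) (pull φ g' x) * g x v v)) :
    (IsMetric g' → BdryLE g g' → vol g ≤ vol g' ∧ (vol g' = vol g ↔ IsIsometric g g' φ)) ∧
    (IsSimpleM g' → BdryLE g g' → BdryLE g' g → IsIsometric g g' φ ∧ RelIsometric g g') := by
  have hn0 : 0 < Module.finrank ℝ E := by omega
  have hn' : (0 : ℝ) < Module.finrank ℝ E := by exact_mod_cast hn0
  have hgm : IsMetric g := by
    obtain ⟨e, L, h⟩ := hg
    exact Simple_isMetric h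
  have hcone : IsMetric g' → InCone (1 / Module.finrank ℝ E) g g' φ := by
    intro hg'
    refine ⟨hbij, fun x hx => ?_⟩
    refine (stretch_le hn0 hgm hg' hφ hx).trans ((ntr_le hn0 hgm hg' hφ hx (hb x hx)).trans ?_)
    rw [div_mul_eq_mul_div, one_mul]
  have hA : IsMetric g' → BdryLE g g' →
      vol g ≤ vol g' ∧ (vol g' = vol g ↔ IsIsometric g g' φ) := fun hg' hd =>
    (mainA hn hg hg' hφ hd).2.2 _ (by positivity) (hcone hg')
  refine ⟨hA, fun hg' hd hd' => ?_⟩
  have hgm' : IsMetric g' := by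
    obtain ⟨e, L, h⟩ := hg'
    exact Simple_isMetric h
  obtain ⟨h1, -, h3⟩ := mainB hn hg hg' hd hd'
  exact ⟨(hA hgm' hd).2.1 h1, h3.2 ⟨φ, _, hφ, hcone hgm'⟩⟩

end Pool.Agent.H83.BD
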